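import Mathlib
import Pool.Agent.Helper73.TH.Final

set_option autoImplicit false

/-!
# The optimal exponent for approximation from the domains `Φ(ρ, 0)` (MP_594f4b_nt, question Q2)

For every real `ρ` with `1 < ρ ≤ 7/4` the supremum `s*(ρ)` of the exponents admitted by the pair
`(ρ, 0)` is the largest real root of an explicit sextic polynomial with coefficients in `ℤ[ρ]`,
and for `ρ < 7/4` it is larger than the largest root `s(ρ)` of Thurnheer's cubic.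

Lower bound: sequence of minimal points of the linear form, Minkowski's theorem in space and in the
planes spanned by consecutive minimal points. Upper bound: an explicit construction of a linear
form whose minimal points `(a_k, X_k)` satisfy `a_k ≈ X_k ^ α`, `X_(k+1) ≈ X_k ^ γ`.
-/

namespace Pool.Agent.Results.MP_594f4b_nt.OptimalExponent

/-- `‖y‖`, the distance from the real number `y` to the nearest integer. -/
noncomputable def distInt (y : ℝ) : ℝ := |y - round y|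

/-- The standard domain `Φ₀(ρ, τ) = {|x₂| ≤ |x₁|^ρ} ∪ {|x₁| ≤ |x₂|^τ}` in the plane
(for `τ = 0` one has `|x₂|^0 = 1`, also at `x₂ = 0`, so the second set is `{|x₁| ≤ 1}`). -/
def Phi0 (ρ τ : ℝ) : Set (ℝ × ℝ) :=
  {x | |x.2| ≤ |x.1| ^ ρ} ∪ {x | |x.1| ≤ |x.2| ^ τ}

/-- `(ρ, τ)` admits exponent `s`: for all `θ₁, θ₂` with `1, θ₁, θ₂` linearly independent over `ℤ`
and for every non-degenerate linear map `L` of the plane there is `c > 0` such that infinitely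
many integer points `x` of `L(Φ₀(ρ, τ))` satisfy `‖θ₁ x₁ + θ₂ x₂‖ ≤ c |x|^(-s)`,
`|x| = max(|x₁|, |x₂|)`. -/
def Admits (ρ τ s : ℝ) : Prop :=
  ∀ θ₁ θ₂ : ℝ, LinearIndependent ℤ ![(1 : ℝ), θ₁, θ₂] →
    ∀ L : (ℝ × ℝ) ≃ₗ[ℝ] (ℝ × ℝ), ∃ c : ℝ, 0 < c ∧
      {x : ℤ × ℤ | ((x.1 : ℝ), (x.2 : ℝ)) ∈ L '' Phi0 ρ τ ∧
        distInt (θ₁ * x.1 + θ₂ * x.2) ≤ c * (max |(x.1 : ℝ)| |(x.2 : ℝ)|) ^ (-s)}.Infinite

/-- `s*(ρ)`, the supremum of all `s > 0` such that `(ρ, 0)` admits exponent `s`. -/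
noncomputable def sStar (ρ : ℝ) : ℝ := sSup {s : ℝ | 0 < s ∧ Admits ρ 0 s}

/-- The sextic polynomial that determines `s*(ρ)`. -/
def sextic (ρ x : ℝ) : ℝ :=
  ρ ^ 2 * x ^ 6 - 2 * ρ * (ρ - 1) * x ^ 5 - (3 * ρ ^ 2 + 2 * ρ - 1) * x ^ 4 - (ρ + 1) * x ^ 3
    + (9 * ρ ^ 2 - 7 * ρ + 2) * x ^ 2 + (4 * ρ ^ 2 + ρ - 1) * x + ρ

/-- Thurnheer's cubic, whose largest real root is `s(ρ)`. -/
def cubic (ρ x : ℝ) : ℝ := ρ * x ^ 3 - 2 * (ρ - 1) * x ^ 2 - 2 * ρ * x - 1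

/-- For `1 < ρ ≤ 7/4` the supremum `s*(ρ)` of the exponents admitted by `(ρ, 0)` is the largest
real root of the sextic, and for `ρ < 7/4` it is larger than every real root of Thurnheer's cubic,
so `s*(ρ) > s(ρ)`. -/
theorem result : ∀ ρ : ℝ, 1 < ρ → ρ ≤ 7 / 4 →
    IsLUB {s : ℝ | 0 < s ∧ Admits ρ 0 s} (sStar ρ) ∧
    IsGreatest {x : ℝ | sextic ρ x = 0} (sStar ρ) ∧
    (ρ < 7 / 4 → ∀ x : ℝ, cubic ρ x = 0 → x < sStar ρ) := by
  intro ρ h1 h2
  obtain ⟨σ, β, h⟩ := Pool.Agent.Helper73.TH.exists_curve ρ h1 h2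
  have hlub : IsLUB {s : ℝ | 0 < s ∧ Admits ρ 0 s} σ :=
    Pool.Agent.Helper73.TH.isLUB_of_curve h h1 h2
  have hne : {s : ℝ | 0 < s ∧ Admits ρ 0 s}.Nonempty := by
    by_contra hcon
    rw [Set.not_nonempty_iff_eq_empty] at hcon
    rw [hcon] at hlub
    have h3 : σ - 1 ∈ upperBounds (∅ : Set ℝ) := fun x hx => absurd hx (Set.notMem_empty x)
    have h4 := hlub.2 h3
    linarith
  have hσ : sStar ρ = σ := hlub.csSup_eq hne
  rw [hσ]
  refine ⟨hlub, ⟨Pool.Agent.Helper73.TH.curve_root h, ?_⟩, ?_⟩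
  · intro x hx
    exact Pool.Agent.Helper73.TH.curve_greatest h h1 x hx
  · intro h3 x hx
    exact Pool.Agent.Helper73.TH.curve_gt_cubic h h3 x hx

end Pool.Agent.Results.MP_594f4b_nt.OptimalExponent
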