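import Mathlib
import Pool.Agent.Helper8.Thurn5

/-!
# Optimality of Thurnheer's exponent 7/4 (MP_594f4b_nt, question Q1)

For every real `ρ` with `1 < ρ < 7/4` the pair `(ρ, 0)` does not admit exponent `2`.

The proof constructs, for a large integer `N` depending on `ρ`, integer points `w_i ∈ ℤ³`
(with middle coordinate of size `t²` and last coordinate of size `t^N`, where `t = 100^(3^i)`),
whose consecutive determinants are Fibonacci numbers of size `t^(N+1)`, and takes for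
`(1, θ₁, θ₂)` the limit direction of the normal vectors `w_(i-1) × w_i`.
-/

namespace Pool.Agent.Results.MP_594f4b_nt.SevenFourthsOptimal

open Pool.Agent.Helper8.Thurn

/-- `‖y‖`, the distance from the real number `y` to the nearest integer. -/
noncomputable def distInt (y : ℝ) : ℝ := |y - round y|

/-- The standard domain `Φ₀(ρ, τ) = {|x₂| ≤ |x₁|^ρ} ∪ {|x₁| ≤ |x₂|^τ}` in the plane
(for `τ = 0` one has `|x₂|^0 = 1`, also at `x₂ = 0`, so the second set is `{|x₁| ≤ 1}`). -/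
def Phi0 (ρ τ : ℝ) : Set (ℝ × ℝ) :=
  {x | |x.2| ≤ |x.1| ^ ρ} ∪ {x | |x.1| ≤ |x.2| ^ τ}

/-- `(ρ, τ)` admits exponent `s`: for all `θ₁, θ₂` with `1, θ₁, θ₂` linearly independent over `ℤ`
and for every non-degenerate linear map `L` of the plane there is `c > 0` such that infinitely
many integer points `x` of `L(Φ₀(ρ, τ))` satisfy `‖θ₁ x₁ + θ₂ x₂‖ ≤ c |x|^(-s)`,
`|x| = max(|x₁|, |x₂|)`. -/
def Admits (ρ τ s : ℝ) : Prop :=
  ∀ θ₁ θ₂ : ℝ, LinearIndependent ℤ ![(1 : ℝ), θ₁, θ₂] →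
    ∀ L : (ℝ × ℝ) ≃ₗ[ℝ] (ℝ × ℝ), ∃ c : ℝ, 0 < c ∧
      {x : ℤ × ℤ | ((x.1 : ℝ), (x.2 : ℝ)) ∈ L '' Phi0 ρ τ ∧
        distInt (θ₁ * x.1 + θ₂ * x.2) ≤ c * (max |(x.1 : ℝ)| |(x.2 : ℝ)|) ^ (-s)}.Infinite

lemma tendsto_t : ∀ C : ℝ, ∃ i : ℕ, C < (100:ℝ)^(3^i) := by
  intro C
  obtain ⟨n, hn⟩ := pow_unbounded_of_one_lt C (by norm_num : (1:ℝ) < 100)
  refine ⟨n, hn.trans_le ?_⟩
  apply pow_le_pow_right₀ (by norm_num)
  exact (Nat.lt_pow_self (by norm_num : 1 < 3)).le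

lemma t_mono {i j : ℕ} (h : i ≤ j) : (100:ℝ)^(3^i) ≤ (100:ℝ)^(3^j) := by
  apply pow_le_pow_right₀ (by norm_num)
  exact Nat.pow_le_pow_right (by norm_num) h

lemma linIndep {N : ℕ} (d : Data N) : LinearIndependent ℤ ![(1 : ℝ), d.θ1, d.θ2] := by
  rw [Fintype.linearIndependent_iff]
  intro g hg
  rw [Fin.sum_univ_three] at hg
  simp only [Matrix.cons_val_zero, Matrix.cons_val_one, Matrix.cons_val_two,
    zsmul_eq_mul, mul_one, Matrix.head_cons, Matrix.tail_cons] at hg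
  obtain ⟨y0, hy0⟩ : ∃ y, y = g 0 := ⟨_, rfl⟩
  obtain ⟨y1, hy1⟩ : ∃ y, y = g 1 := ⟨_, rfl⟩
  obtain ⟨y2, hy2⟩ : ∃ y, y = g 2 := ⟨_, rfl⟩
  have hL : d.L y0 y1 y2 = 0 := by
    rw [Data.L, hy0, hy1, hy2]
    have : (![(1 : ℝ), d.θ1, d.θ2] 2) = d.θ2 := rfl
    linarith
  -- choose a large index
  obtain ⟨i, hi⟩ := tendsto_t (96 * nrm y1 y2 + |(y1:ℝ)|)
  have hn0 : 0 ≤ nrm y1 y2 := le_trans (abs_nonneg _) (le_max_left _ _)
  have hz : ∀ j, i ≤ j → (d.S j).z0 * y0 + (d.S j).z1 * y1 + (d.S j).z2 * y2 = 0 := by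
    intro j hj
    have h1 := d.z_est j y0 y1 y2
    rw [hL, mul_zero, sub_zero] at h1
    have hP : 0 < ((100:ℝ)^(3^j))^(N+1) := by positivity
    have h2 : 48 * nrm y1 y2 / (((100:ℝ)^(3^j))^(N+1)) < 1 := by
      rw [div_lt_one hP]
      have h3 : (100:ℝ)^(3^i) ≤ ((100:ℝ)^(3^j))^(N+1) := by
        calc (100:ℝ)^(3^i) ≤ (100:ℝ)^(3^j) := t_mono hj
          _ = ((100:ℝ)^(3^j))^1 := (pow_one _).symm
          _ ≤ _ := pow_le_pow_right₀ (by have := t_ge j; linarith) (by omega)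
      have : 0 ≤ |(y1:ℝ)| := abs_nonneg _
      linarith
    have h4 := lt_of_le_of_lt h1 h2
    by_contra h5
    have : 1 ≤ |(d.S j).z0 * y0 + (d.S j).z1 * y1 + (d.S j).z2 * y2| := Int.one_le_abs h5
    have h6 : (1:ℝ) ≤ |(((d.S j).z0 * y0 + (d.S j).z1 * y1 + (d.S j).z2 * y2 : ℤ) : ℝ)| := by
      exact_mod_cast this
    linarith
  have hzi := hz i le_rfl
  have hzi1 := hz (i+1) (by omega)
  have hR := d.rel i
  have hI := d.inv i
  -- `v · y = 0`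
  have hv : d.v0 i * y0 + d.v1 i * y1 + d.v2 i * y2 = 0 := by
    rw [hR.z0, hR.z1, hR.z2] at hzi1
    have e : (Nat.fib (d.k i + 1) : ℤ) * (d.v0 i * y0 + d.v1 i * y1 + d.v2 i * y2) = 0 := by
      linear_combination hzi1 - (Nat.fib (d.k i) : ℤ) * hzi
    have hf : (Nat.fib (d.k i + 1) : ℤ) ≠ 0 := by
      have : 0 < Nat.fib (d.k i + 1) := Nat.fib_pos.mpr (Nat.succ_pos _)
      exact_mod_cast this.ne'
    exact (mul_eq_zero.mp e).resolve_left hf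
  -- coordinates in the basis
  set S := d.S i with hS
  have hdet : S.dt = 1 := hI.det
  have hdet2 : (S.a1 * S.b2 - S.a2 * S.b1) * S.c0 + (S.a2 * S.b0 - S.a0 * S.b2) * S.c1
      + (S.a0 * S.b1 - S.a1 * S.b0) * S.c2 = 1 := hdet
  have hzy : (S.a1 * S.b2 - S.a2 * S.b1) * y0 + (S.a2 * S.b0 - S.a0 * S.b2) * y1
      + (S.a0 * S.b1 - S.a1 * S.b0) * y2 = 0 := hzi
  obtain ⟨a, ha⟩ : ∃ a : ℤ, a = (S.b1 * S.c2 - S.b2 * S.c1) * y0 + (S.b2 * S.c0 - S.b0 * S.c2) * y1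
      + (S.b0 * S.c1 - S.b1 * S.c0) * y2 := ⟨_, rfl⟩
  obtain ⟨b, hb⟩ : ∃ b : ℤ, b = (S.c1 * S.a2 - S.c2 * S.a1) * y0 + (S.c2 * S.a0 - S.c0 * S.a2) * y1
      + (S.c0 * S.a1 - S.c1 * S.a0) * y2 := ⟨_, rfl⟩
  have hy0' : y0 = a * S.a0 + b * S.b0 := by
    rw [ha, hb]
    linear_combination (-y0) * hdet2 + S.c0 * hzy
  have hy1' : y1 = a * S.a1 + b * S.b1 := by
    rw [ha, hb]
    linear_combination (-y1) * hdet2 + S.c1 * hzy
  have hy2' : y2 = a * S.a2 + b * S.b2 := by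
    rw [ha, hb]
    linear_combination (-y2) * hdet2 + S.c2 * hzy
  have ha0 : a = 0 := by
    have e : d.v0 i * y0 + d.v1 i * y1 + d.v2 i * y2 = a := by
      have e1 := hR.va
      have e2 := hR.vb
      rw [hy0', hy1', hy2']
      linear_combination a * e1 + b * e2
    rw [← e]; exact hv
  rw [ha0] at hy0' hy1' hy2'
  simp only [zero_mul, zero_add] at hy0' hy1' hy2'
  have hb0 : b = 0 := by
    by_contra hb0
    have h1 : 1 ≤ |b| := Int.one_le_abs hb0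
    have h2 : ((100:ℤ)^(3^i))^2 ≤ |y1| := by
      rw [hy1', abs_mul]
      have h3 := hI.b1l
      have h4 : S.b1 ≤ |S.b1| := le_abs_self _
      have h5 : 0 ≤ |S.b1| := abs_nonneg _
      nlinarith
    have h3 : ((100:ℝ)^(3^i))^2 ≤ |(y1:ℝ)| := by exact_mod_cast h2
    have h4 : (100:ℝ)^(3^i) ≤ ((100:ℝ)^(3^i))^2 := by
      have := t_ge i
      nlinarith
    linarith
  rw [hb0] at hy0' hy1' hy2'
  simp only [zero_mul] at hy0' hy1' hy2'
  intro j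
  fin_cases j
  · show g 0 = 0
    rw [← hy0, hy0']
  · show g 1 = 0
    rw [← hy1, hy1']
  · show g 2 = 0
    rw [← hy2, hy2']

theorem result : ∀ ρ : ℝ, 1 < ρ → ρ < 7 / 4 → ¬ Admits ρ 0 2 := by
  intro ρ h1 h2 hadm
  obtain ⟨N0, hN0⟩ := exists_nat_gt (18 / (7 - 4 * ρ))
  have hpos : 0 < 7 - 4 * ρ := by linarith
  obtain ⟨N, hN5, hN⟩ : ∃ N : ℕ, 5 ≤ N ∧ 18 ≤ (7 - 4*ρ) * N := by
    refine ⟨N0 + 5, by omega, ?_⟩
    rw [div_lt_iff₀ hpos] at hN0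
    push_cast
    nlinarith
  obtain ⟨d⟩ := exists_data N hN5
  obtain ⟨c, hc, hinf⟩ := hadm d.θ1 d.θ2 (linIndep d) (LinearEquiv.refl ℝ (ℝ × ℝ))
  apply hinf
  obtain ⟨I, hI⟩ := tendsto_t (10^6 * c)
  set B : ℝ := ((100:ℝ)^(3^I))^(N+1) with hB
  apply Set.Finite.subset (Set.Finite.prod (Set.finite_Icc (-⌈B⌉) ⌈B⌉) (Set.finite_Icc (-⌈B⌉) ⌈B⌉))
  rintro ⟨x1, x2⟩ ⟨hdom, hx⟩
  simp only at hdom hx
  have hdom' : Dom ρ x1 x2 := by
    obtain ⟨⟨p1, p2⟩, hp, hpe⟩ := hdom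
    simp only [LinearEquiv.refl_apply, Prod.mk.injEq] at hpe
    obtain ⟨e1, e2⟩ := hpe
    rcases hp with hp | hp
    · left
      simp only [Set.mem_ofPred_eq] at hp
      rw [← e1, ← e2]; exact hp
    · right
      simp only [Set.mem_ofPred_eq, Real.rpow_zero] at hp
      rw [← e1]; exact hp
  have hX : 96 * nrm x1 x2 < B := by
    by_contra hcon
    push Not at hcon
    have hBpos : 0 < B := by positivity
    have hXpos : 0 < nrm x1 x2 := by linarith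
    -- find the index
    obtain ⟨J, hJ⟩ := tendsto_t (96 * nrm x1 x2)
    have hJ' : 96 * nrm x1 x2 < ((100:ℝ)^(3^J))^(N+1) := by
      refine hJ.trans_le ?_
      calc (100:ℝ)^(3^J) = ((100:ℝ)^(3^J))^1 := (pow_one _).symm
        _ ≤ _ := pow_le_pow_right₀ (by have := t_ge J; linarith) (by omega)
    classical
    have hex : ∃ j, 96 * nrm x1 x2 < ((100:ℝ)^(3^j))^(N+1) := ⟨J, hJ'⟩
    set m := Nat.find hex with hm
    have hm1 : 96 * nrm x1 x2 < ((100:ℝ)^(3^m))^(N+1) := Nat.find_spec hex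
    have hmI : I < m := by
      by_contra hle
      push Not at hle
      have : ((100:ℝ)^(3^m))^(N+1) ≤ B := by
        rw [hB]
        exact pow_le_pow_left₀ (by positivity) (t_mono hle) _
      linarith
    obtain ⟨i, hi⟩ : ∃ i, m = i + 1 := ⟨m - 1, by omega⟩
    have hmi : ((100:ℝ)^(3^i))^(N+1) ≤ 96 * nrm x1 x2 := by
      have := Nat.find_min hex (m := i) (by omega)
      push Not at this
      exact this
    rw [hi] at hm1
    have hIi : I ≤ i := by omega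
    have hkey := d.key hN5 ρ h1 h2 hN i (-round (d.θ1 * x1 + d.θ2 * x2)) x1 x2 hdom' hmi hm1
    have hLeq : |d.L (-round (d.θ1 * x1 + d.θ2 * x2)) x1 x2| =
        distInt (d.θ1 * x1 + d.θ2 * x2) := by
      rw [Data.L, distInt]
      congr 1
      push_cast
      ring
    rw [hLeq] at hkey
    have hrp : (max |(x1 : ℝ)| |(x2 : ℝ)|) ^ (-(2:ℝ)) = ((nrm x1 x2)^2)⁻¹ := by
      rw [Real.rpow_neg (by positivity)]
      congr 1
      rw [show (2:ℝ) = ((2:ℕ):ℝ) by norm_num, Real.rpow_natCast]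
      rfl
    rw [hrp] at hx
    have hx2 : (nrm x1 x2)^2 * distInt (d.θ1 * x1 + d.θ2 * x2) ≤ c := by
      have := mul_le_mul_of_nonneg_left hx (by positivity : 0 ≤ (nrm x1 x2)^2)
      calc _ ≤ _ := this
        _ = c := by
          field_simp
    have h3 := t_mono hIi
    linarith
  have hBc : B ≤ ⌈B⌉ := Int.le_ceil B
  have hn1 : |(x1:ℝ)| ≤ nrm x1 x2 := le_max_left _ _
  have hn2 : |(x2:ℝ)| ≤ nrm x1 x2 := le_max_right _ _
  have hn0 : 0 ≤ nrm x1 x2 := le_trans (abs_nonneg _) hn1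
  have hx1 : |(x1:ℝ)| ≤ (⌈B⌉ : ℝ) := by linarith
  have hx2 : |(x2:ℝ)| ≤ (⌈B⌉ : ℝ) := by linarith
  have hx1' : |x1| ≤ ⌈B⌉ := by exact_mod_cast hx1
  have hx2' : |x2| ≤ ⌈B⌉ := by exact_mod_cast hx2
  rw [abs_le] at hx1' hx2'
  exact ⟨⟨hx1'.1, hx1'.2⟩, ⟨hx2'.1, hx2'.2⟩⟩

end Pool.Agent.Results.MP_594f4b_nt.SevenFourthsOptimal
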